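import Pool.Agent.H.MP_ee84c2_an.Diff

namespace Pool.Agent.Results.MP_ee84c2_an.DiffBasis

variable {X : Type} [NormedAddCommGroup X]

def SUCC (𝕜 : Type) [RCLike 𝕜] [NormedSpace 𝕜 X] (x : ℕ → X) : Prop :=
  ∃ C : ℝ, 1 ≤ C ∧ ∀ (A B : Finset ℕ), B ⊆ A → ∀ ε : ℕ → 𝕜, (∀ n, ‖ε n‖ = 1) →
    ‖∑ n ∈ B, ε n • x n‖ ≤ C * ‖∑ n ∈ A, ε n • x n‖

def LUCC (𝕜 : Type) [RCLike 𝕜] [NormedSpace 𝕜 X] (x : ℕ → X) : Prop :=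
  ∃ C : ℝ, 1 ≤ C ∧ ∀ (A : Finset ℕ) (ε : ℕ → 𝕜), (∀ n, ‖ε n‖ = 1) →
    ∀ a : ℕ → ℝ, (∀ n, 1 ≤ a n) →
      ‖∑ n ∈ A, ε n • x n‖ ≤ C * ‖∑ n ∈ A, (ε n * a n) • x n‖

open Pool.Agent.H.MP_ee84c2_an in
theorem result (𝕜 : Type) [RCLike 𝕜] :
    ∃ (X : Type) (_ : NormedAddCommGroup X) (_ : NormedSpace 𝕜 X) (_ : CompleteSpace X)
      (x : ℕ → X) (f : ℕ → X →L[𝕜] 𝕜),
      (∀ k n, f k (x n) = if k = n then 1 else 0) ∧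
      Dense (Submodule.span 𝕜 (Set.range x) : Set X) ∧ (∀ v, (∀ n, f n v = 0) → v = 0) ∧
      (∀ n, ‖x n‖ ≤ 2 ∧ ‖f n‖ ≤ 1) ∧ LUCC 𝕜 x ∧ ¬ SUCC 𝕜 x := by
  refine ⟨X 𝕜, inferInstance, inferInstance, inferInstance, x, f, f_x, dense_x, total,
    fun n => ⟨norm_x n, norm_f n⟩, ⟨1, le_rfl, fun A ε hε a ha => ?_⟩, ?_⟩
  · rw [one_mul]; exact lucc A ε hε a ha
  · rintro ⟨C, C1, h⟩
    obtain ⟨m, hm⟩ := exists_nat_gt (C * 2)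
    have h1 := h (Finset.range (2 * m)) ((Finset.range m).image fun i => 2 * i)
      (fun n hn => by
        obtain ⟨i, hi, rfl⟩ := Finset.mem_image.1 hn
        rw [Finset.mem_range] at hi ⊢; omega) (fun _ => 1) fun _ => norm_one
    have h2 := half (𝕜 := 𝕜) m
    have h3 := mul_le_mul_of_nonneg_left (full (𝕜 := 𝕜) (2 * m)) (zero_le_one.trans C1)
    linarith

end Pool.Agent.Results.MP_ee84c2_an.DiffBasis
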